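import Mathlib
import Pool.Agent.Y57.AK.Scale2

set_option autoImplicit false

/-! # Progressions whose common differences form a Cantor set

The arithmetic Kakeya problem of Q1 for `n = 1` with the interval `[0,1]` of common differences
replaced by smaller sets of numbers whose digits in a base `M` are small compared with `M`.

1. One scale: the digit vectors form a set `T ⊆ {0, …, H} ^ m` which is rich for polynomials: all
   functions on `T` are restrictions of polynomials of degree `w ≤ κ m` in `m` variables, and `T` has at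
   least `C(m + w, w) ^ c` elements (for instance subsets of products of `m` bounded alphabets,
   of positive entropy, or vectors with few nonzero digits). A set `B` that contains `k`-term
   progressions with all these common differences needs `|T| ^ (1 - ε)` intervals of length `M ^ (-m)`.
2. Cantor sets: all numbers with digits `r_i ∈ R_i`, where the sets `R_i` have between `2` and `q` elements:
   `B` cannot be covered more efficiently than `C ^ (1 - ε)`, if `k ≥ k(q, ε)`. -/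

open Finset

namespace Pool.Agent.Results.MP_4b405e_nt.CantorDifferences

/-- the number `∑ r_i M ^ (-(i + 1))` with digits `r_0, …, r_(m-1)` -/
noncomputable def value {m : ℕ} (M : ℕ) (r : Fin m → ℕ) : ℝ :=
  ∑ i : Fin m, (r i : ℝ) / (M : ℝ) ^ ((i : ℕ) + 1)

/-- every function on the finite set `D ⊆ ℚ ^ m` is the restriction of a polynomial of total degree
at most `w` -/
def Interp {m : ℕ} (w : ℕ) (D : Finset (Fin m → ℚ)) : Prop :=
  ∀ u : (Fin m → ℚ) → ℚ, ∃ f : MvPolynomial (Fin m) ℚ, f.totalDegree ≤ w ∧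
    ∀ d ∈ D, MvPolynomial.eval d f = u d

/-- the numbers `∑_{i < m} r_i M ^ (-(i + 1))`, `m ≥ 0`, with digits `r_i ∈ R_i` -/
def Cantor (M : ℕ) (R : ℕ → Finset ℕ) : Set ℝ :=
  {ρ | ∃ (m : ℕ) (r : ℕ → ℕ), (∀ i < m, r i ∈ R i) ∧
    ρ = ∑ i ∈ range m, (r i : ℝ) / (M : ℝ) ^ (i + 1)}

theorem result :
    -- 1. one scale, rich sets of digit vectors
    (∀ (κ : ℕ) (c ε : ℝ), 0 < c → 0 < ε → ∃ k Λ : ℕ, ∀ (m w H M : ℕ) (T : Finset (Fin m → ℕ)),
      1 ≤ H → w ≤ κ * m → Λ * H < M → (∀ r ∈ T, (∀ i, r i ≤ H) ∧ ∑ i, r i ≤ H * w) →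
      Interp w (T.image fun r => fun i => (r i : ℚ)) →
      (((m + w).choose w : ℕ) : ℝ) ^ c ≤ (T.card : ℝ) →
      ∀ B : Set ℝ, (∀ r ∈ T, ∃ a : ℝ, ∀ j : ℕ, j < k → a + j * value M r ∈ B) →
      ∀ P : Finset ℝ, (B ⊆ ⋃ x ∈ P, Metric.ball x (((M : ℝ) ^ m)⁻¹)) →
      (T.card : ℝ) ^ (1 - ε) ≤ 3 * (P.card : ℝ)) ∧
    -- 2. Cantor sets
    (∀ q : ℕ, 2 ≤ q → ∀ ε : ℝ, 0 < ε → ε < 1 → ∃ k Λ : ℕ, ∀ (H M : ℕ) (R : ℕ → Finset ℕ),
      1 ≤ H → Λ * H < M → (∀ i, 2 ≤ (R i).card ∧ (R i).card ≤ q ∧ ∀ r ∈ R i, r ≤ H) →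
      ∀ B : Set ℝ, (∀ ρ ∈ Cantor M R, ∃ a : ℝ, ∀ j : ℕ, j < k → a + j * ρ ∈ B) →
      -- coverings at the scales `M ^ (-m)`
      (∀ (m : ℕ) (P : Finset ℝ), (B ⊆ ⋃ x ∈ P, Metric.ball x (((M : ℝ) ^ m)⁻¹)) →
        (((∏ i ∈ range m, (R i).card : ℕ)) : ℝ) ^ (1 - ε) ≤ 3 * (P.card : ℝ)) ∧
      -- if all alphabets have `q` elements: coverings at all scales
      ((∀ i, (R i).card = q) → ∀ δ : ℝ, 0 < δ → δ < 1 → ∀ P : Finset ℝ,
        (B ⊆ ⋃ x ∈ P, Metric.ball x δ) →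
        δ ^ (-((1 - ε) * (Real.log q / Real.log M))) ≤ 3 * q * (P.card : ℝ))) :=
  ⟨fun κ c ε hc hε => Pool.Agent.Y57.AK.scale2 κ c ε hc hε,
    fun q hq ε hε hε1 => Pool.Agent.Y57.AK.cantor2 q hq ε hε hε1⟩

end Pool.Agent.Results.MP_4b405e_nt.CantorDifferences
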