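import Pool.Agent.W46.KK.Final
import Pool.Agent.TH404.AK.Sdc3

/-!
# The Minkowski-dimension arithmetic Kakeya problem: the limit is at least `n / 1.669587`

For every `n` there is `k₀` such that `f^M_n(k) ≥ n / 1.669587` for all `k ≥ k₀`; the published record
is `n / 1.67513...` (Katz and Tao).  The first part is the uniform version for covering numbers.
-/

set_option autoImplicit false

open Filter Topology

namespace Pool.Agent.Results.MP_4b405e_nt.ChainDimension

/-- `B` contains a `k`-term progression with every common difference in `[0,1]^n`. -/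
def HasProgressions {n : ℕ} (k : ℕ) (B : Set (EuclideanSpace ℝ (Fin n))) : Prop :=
  ∀ r : EuclideanSpace ℝ (Fin n), (∀ i, r i ∈ Set.Icc (0 : ℝ) 1) →
    ∃ a : EuclideanSpace ℝ (Fin n), ∀ j : ℕ, j < k → a + (j : ℝ) • r ∈ B

/-- The least number of sets of diameter at most `δ` covering `B` (for bounded `B`). -/
noncomputable def coverNum {n : ℕ} (B : Set (EuclideanSpace ℝ (Fin n))) (δ : ℝ) : ℕ :=
  sInf {N | ∃ U : Fin N → Set (EuclideanSpace ℝ (Fin n)),
    (∀ i, ∀ x ∈ U i, ∀ y ∈ U i, dist x y ≤ δ) ∧ B ⊆ ⋃ i, U i}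

/-- Upper Minkowski dimension (upper box-counting dimension). -/
noncomputable def upperMinkowski {n : ℕ} (B : Set (EuclideanSpace ℝ (Fin n))) : EReal :=
  limsup (fun δ : ℝ => ((Real.log (coverNum B δ) / Real.log (1 / δ) : ℝ) : EReal)) (𝓝[>] 0)

/-- `f^M_n(k)`: the infimum of the upper Minkowski dimensions of the bounded sets in `ℝ^n` that
contain a `k`-term progression with every common difference in `[0,1]^n`. -/
noncomputable def fM (n k : ℕ) : EReal :=
  ⨅ (B : Set (EuclideanSpace ℝ (Fin n))) (_ : Bornology.IsBounded B) (_ : HasProgressions k B),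
    upperMinkowski B

/-- For every `n` there are `k₀` and `κ > 0` such that
(1) every set `B ⊆ ℝ^n` (bounded or not) that contains a `k₀`-term progression with every common
difference in `[0,1]^n` cannot be covered by fewer than `κ δ ^ (-n / 1.669587)` sets of diameter at
most `δ`, for any `δ > 0`;
(2) `f^M_n(k) ≥ n / 1.669587` for all `k ≥ k₀`, hence the same for the limit. -/
theorem result (n : ℕ) :
    ∃ (k₀ : ℕ) (κ : ℝ), 0 < κ ∧
      (∀ B : Set (EuclideanSpace ℝ (Fin n)), HasProgressions k₀ B → ∀ δ : ℝ, 0 < δ →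
        ∀ (N : ℕ) (U : Fin N → Set (EuclideanSpace ℝ (Fin n))),
          (∀ i, ∀ x ∈ U i, ∀ y ∈ U i, dist x y ≤ δ) → B ⊆ ⋃ i, U i →
          κ * δ ^ (-((n : ℝ) / 1.669587)) ≤ N) ∧
      ∀ k ≥ k₀, (((n : ℝ) / 1.669587 : ℝ) : EReal) ≤ fM n k := by
  have hsd : Pool.Agent.W46.KK.SD (1669587 / 1000000) := by
    obtain ⟨S, h⟩ := Pool.Agent.TH404.AK.sdc3
    exact ⟨S, h⟩
  have e : (1.669587 : ℝ) = 1669587 / 1000000 := by norm_num
  have hc : (0 : ℝ) < 1669587 / 1000000 := by norm_num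
  rw [e]
  obtain ⟨k₁, κ, hκ, h1⟩ := Pool.Agent.W46.KK.prog hsd hc n
  obtain ⟨k₂, h2⟩ := Pool.Agent.W46.KK.prog_dim hsd hc n
  refine ⟨max k₁ k₂, κ, hκ, ?_, ?_⟩
  · intro B hB δ hδ N U hU hcov
    have hB' : ∀ r : EuclideanSpace ℝ (Fin n), (∀ i, r i ∈ Set.Icc (0 : ℝ) 1) →
        ∃ a : EuclideanSpace ℝ (Fin n), ∀ j : ℕ, j < k₁ → a + (j : ℝ) • r ∈ B := by
      intro r hr
      obtain ⟨a, ha⟩ := hB r hr
      exact ⟨a, fun j hj => ha j (lt_of_lt_of_le hj (le_max_left _ _))⟩
    have := h1 B hB' δ hδ (Fin N) U hU hcov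
    rwa [Fintype.card_fin] at this
  · intro k hk
    exact h2 k (le_trans (le_max_right _ _) hk)

end Pool.Agent.Results.MP_4b405e_nt.ChainDimension
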